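import Pool.Agent.Helper626.Rand.Exist

namespace Pool.Agent.Results.MP_a2e505_lc.OmegaSWStrict

open Pool.Agent.Helper626.Rand

/-- There are `Ω`-numbers `x`, `y` with `x` strictly sw-below `y`: `x ≤_sw y` and `y ≰_sw x`. -/
theorem result : ∃ x y : ℝ, IsOmega x ∧ IsOmega y ∧ SWle x y ∧ ¬ SWle y x := by
  obtain ⟨y, hy⟩ := exists_omega
  exact ⟨y / 3, y, hy.third, hy, SWle.third hy.lt_one,
    not_SWle_third hy.1 hy.lt_one hy.2.2.1⟩

end Pool.Agent.Results.MP_a2e505_lc.OmegaSWStrict
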