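import Pool.Agent.Helper626.Rand.TT3

namespace Pool.Agent.Results.MP_a2e505_lc.OmegaTTSymmetric

open Pool.Agent.Helper626.Rand

/-- If `x` and `y` are `Ω`-numbers and `y ≤_tt x` then `x ≤_tt y`: no `Ω`-number is strictly
tt-below another one. -/
theorem result : ∀ x y : ℝ, IsOmega x → IsOmega y → TTle y x → TTle x y :=
  fun _ _ hx hy h => TTle_of_TTle hx hy h

end Pool.Agent.Results.MP_a2e505_lc.OmegaTTSymmetric
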